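import Pool.Graph.R_seed8.H112R2.Main
import Pool.Graph.R_seed8.Y806.DF.C

/-!
# Large iterated sumsets: rounding in the convex hull
-/

set_option autoImplicit false

namespace Pool.Agent.H98.Sum

open Finset H112 Pool.Agent.Y806.DF
open scoped Pointwise

variable {G : Type*} [AddCommGroup G]

theorem re_sum {m : ℕ} {ι : Type*} (s : Finset ι) (f : ι → (Fin m → ℤ)) :
    re (∑ i ∈ s, f i) = ∑ i ∈ s, re (f i) := by
  funext j
  simp [re, Finset.sum_apply]

theorem re_nsmul {m : ℕ} (k : ℕ) (v : Fin m → ℤ) : re (k • v) = (k : ℝ) • re v := by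
  funext j
  simp [re]

section
variable [DecidableEq G]

theorem sum_mem_nsmul {A : Finset G} {ι : Type*} (s : Finset ι) (k : ι → ℕ) (a : ι → G)
    (ha : ∀ i ∈ s, a i ∈ A) : ∑ i ∈ s, k i • a i ∈ (∑ i ∈ s, k i) • A := by
  classical
  induction s using Finset.induction_on with
  | empty => simp
  | insert i s his ih =>
    rw [Finset.sum_insert his, Finset.sum_insert his, add_smul]
    refine Finset.add_mem_add (Finset.nsmul_mem_nsmul (ha i (Finset.mem_insert_self _ _))) ?_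
    exact ih fun j hj => ha j (Finset.mem_insert_of_mem hj)

/-- the lifts of the elements of `n A` -/
theorem lift_nsmul {A : Finset G} {m : ℕ} {ψ : (Fin m → ℤ) →+ G} {H : AddSubgroup G}
    (c : G → (Fin m → ℤ)) (hc : ∀ a ∈ A, a - ψ (c a) ∈ H) (hA : A.Nonempty) (n : ℕ) :
    ∀ x ∈ n • A, ∃ v : Fin m → ℤ, re v ∈ (n : ℝ) • convexHull ℝ ((fun a => re (c a)) '' (A : Set G)) ∧
      x - ψ v ∈ H := by
  induction n with
  | zero =>
    intro x hx
    rw [zero_smul, Finset.mem_zero] at hx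
    obtain ⟨a, ha⟩ := hA
    refine ⟨0, ⟨re (c a), subset_convexHull _ _ ⟨a, ha, rfl⟩, ?_⟩, ?_⟩
    · funext i; simp [re]
    · rw [hx, map_zero, sub_zero]; exact H.zero_mem
  | succ n ih =>
    intro x hx
    rw [succ_nsmul] at hx
    obtain ⟨y, hy, a, ha, rfl⟩ := Finset.mem_add.1 hx
    obtain ⟨v, hv, hvH⟩ := ih y hy
    refine ⟨v + c a, ?_, ?_⟩
    · rw [re_add, Nat.cast_succ, (convex_convexHull ℝ _).add_smul (Nat.cast_nonneg _) zero_le_one]
      refine Set.add_mem_add hv ?_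
      rw [one_smul]
      exact subset_convexHull _ _ ⟨a, ha, rfl⟩
    · rw [map_add]
      have : y + a - (ψ v + ψ (c a)) = (y - ψ v) + (a - ψ (c a)) := by abel
      rw [this]
      exact H.add_mem hvH (hc a ha)

/-- **Rounding.** -/
theorem rounding {A : Finset G} {S : Set (G →+ UnitAddCircle)} {m : ℕ}
    {N : Seminorm ℝ (Fin m → ℝ)} {ψ : (Fin m → ℤ) →+ G} {ρ : ℝ}
    (h1 : ∀ c : Fin m → ℤ, N (fun i => (c i : ℝ)) < 1 / 2 → ∀ r : ℝ, 0 ≤ r →
        (ψ c ∈ bohr S r ↔ c ∈ LL N r))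
    (c : G → (Fin m → ℤ)) (hc : ∀ a ∈ A, a - ψ (c a) ∈ ann S) (hcN : ∀ a ∈ A, c a ∈ LL N ρ)
    (h0 : (0 : G) ∈ A) (hρ : ((m : ℝ) + 1) * (2 * ρ) ≤ 1 / 6) (n : ℕ) (z : Fin m → ℤ)
    (hz : re z ∈ (n : ℝ) • convexHull ℝ ((fun a => re (c a)) '' (A : Set G) -
      (fun a => re (c a)) '' (A : Set G))) {h : G} (hh : h ∈ ann S) :
    ∃ x ∈ n • A, ∃ y ∈ n • A, ψ z + h - (x - y) ∈ bohr S (1 / 6) := by
  classical
  have hρ0 : 0 ≤ ρ := (apply_nonneg N _).trans (hcN 0 h0)
  obtain ⟨w, hw, hwz⟩ := hz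
  obtain ⟨ι, hι, z', t, hz', hind, ht, hsum, hzw⟩ := eq_pos_convex_span_of_mem_convexHull hw
  have hcard : (Fintype.card ι : ℝ) ≤ m + 1 := by
    have h2 := hind.card_le_finrank_succ
    have h3 : Module.finrank ℝ (vectorSpan ℝ (Set.range z')) ≤ m := by
      have := Submodule.finrank_le (vectorSpan ℝ (Set.range z'))
      rwa [Module.finrank_fin_fun] at this
    have h4 : Fintype.card ι ≤ m + 1 := h2.trans (by omega)
    exact_mod_cast h4
  have hex : ∀ i : ι, ∃ a ∈ A, ∃ b ∈ A, z' i = re (c a) - re (c b) := by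
    intro i
    obtain ⟨_, ⟨a, ha, rfl⟩, _, ⟨b, hb, rfl⟩, hab⟩ := hz' ⟨i, rfl⟩
    exact ⟨a, ha, b, hb, hab.symm⟩
  choose a ha b hb hab using hex
  set k : ι → ℕ := fun i => ⌊(n : ℝ) * t i⌋₊ with hk
  have hkle : ∀ i, (k i : ℝ) ≤ n * t i := fun i =>
    Nat.floor_le (mul_nonneg (Nat.cast_nonneg _) (ht i).le)
  have hklt : ∀ i, n * t i - k i ≤ 1 := fun i => by
    have := Nat.lt_floor_add_one ((n : ℝ) * t i)
    simp only [hk]
    linarith
  have hksum : ∑ i, k i ≤ n := by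
    have h2 : ((∑ i, k i : ℕ) : ℝ) ≤ n := by
      push_cast
      calc ∑ i, (k i : ℝ) ≤ ∑ i, (n : ℝ) * t i := Finset.sum_le_sum fun i _ => hkle i
        _ = n := by rw [← Finset.mul_sum, hsum, mul_one]
    exact_mod_cast h2
  set v : Fin m → ℤ := ∑ i, k i • (c (a i) - c (b i)) with hv
  refine ⟨∑ i, k i • a i, ?_, ∑ i, k i • b i, ?_, ?_⟩
  · exact Finset.nsmul_subset_nsmul_right h0 hksum (sum_mem_nsmul _ _ _ fun i _ => ha i)
  · exact Finset.nsmul_subset_nsmul_right h0 hksum (sum_mem_nsmul _ _ _ fun i _ => hb i)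
  · -- the remainder
    have hrem : re (z - v) = ∑ i, ((n : ℝ) * t i - k i) • (re (c (a i)) - re (c (b i))) := by
      rw [re_sub, hv, re_sum, ← hwz]
      simp only [re_nsmul, re_sub]
      show (n : ℝ) • w - _ = _
      rw [← hzw, Finset.smul_sum, ← Finset.sum_sub_distrib]
      refine Finset.sum_congr rfl fun i _ => ?_
      rw [hab, sub_smul, smul_smul]
    have hNrem : N (re (z - v)) ≤ 1 / 6 := by
      rw [hrem]
      refine (Dim_sum_le N _ _).trans ?_
      calc ∑ i, N (((n : ℝ) * t i - k i) • (re (c (a i)) - re (c (b i))))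
          ≤ ∑ _i : ι, (2 * ρ) := by
            refine Finset.sum_le_sum fun i _ => ?_
            rw [map_smul_eq_mul, Real.norm_eq_abs, abs_of_nonneg (by linarith [hkle i])]
            have e1 : N (re (c (a i)) - re (c (b i))) ≤ 2 * ρ := by
              refine (map_sub_le_add N _ _).trans ?_
              have e2 : N (re (c (a i))) ≤ ρ := hcN _ (ha i)
              have e3 : N (re (c (b i))) ≤ ρ := hcN _ (hb i)
              linarith
            calc ((n : ℝ) * t i - k i) * N (re (c (a i)) - re (c (b i)))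
                ≤ 1 * N (re (c (a i)) - re (c (b i))) :=
                  mul_le_mul_of_nonneg_right (hklt i) (apply_nonneg N _)
              _ ≤ 2 * ρ := by rw [one_mul]; exact e1
        _ = Fintype.card ι * (2 * ρ) := by
            rw [Finset.sum_const, nsmul_eq_mul, Finset.card_univ]
        _ ≤ ((m : ℝ) + 1) * (2 * ρ) := mul_le_mul_of_nonneg_right hcard (by linarith)
        _ ≤ 1 / 6 := hρ
    have hzv : ψ (z - v) ∈ bohr S (1 / 6) :=
      (h1 (z - v) (lt_of_le_of_lt hNrem (by norm_num)) (1 / 6) (by norm_num)).2 hNrem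
    have hψv : (∑ i, k i • a i - ∑ i, k i • b i) - ψ v ∈ ann S := by
      have e : (∑ i, k i • a i - ∑ i, k i • b i) - ψ v =
          ∑ i, k i • ((a i - ψ (c (a i))) - (b i - ψ (c (b i)))) := by
        rw [hv, map_sum, ← Finset.sum_sub_distrib, ← Finset.sum_sub_distrib]
        refine Finset.sum_congr rfl fun i _ => ?_
        rw [map_nsmul, map_sub, ← smul_sub, ← smul_sub]
        congr 1
        abel
      rw [e]
      refine AddSubgroup.sum_mem _ fun i _ => AddSubgroup.nsmul_mem _ ?_ _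
      exact (ann S).sub_mem (hc _ (ha i)) (hc _ (hb i))
    have e : ψ z + h - (∑ i, k i • a i - ∑ i, k i • b i) =
        ψ (z - v) + (h - ((∑ i, k i • a i - ∑ i, k i • b i) - ψ v)) := by
      rw [map_sub]; abel
    rw [e]
    exact bohr_add_ann hzv ((ann S).sub_mem hh hψv)

end

end Pool.Agent.H98.Sum
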