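import Pool.Agent.H98.Sum.Spec
import Pool.Agent.H98.Sum.Conv
import Pool.Graph.R_pool_sql_team_seeded_620a6dc7.helper608_VF_.V7

/-!
# Large iterated sumsets: the structure
-/

set_option autoImplicit false

namespace Pool.Agent.H98.Sum

open Finset H112 Pool.Agent.Y806.DF Pool.Agent.H608VF
open scoped Pointwise

variable {G : Type*} [AddCommGroup G] [DecidableEq G]

theorem core [AddGroup.FG G] {A : Finset G} (h0 : (0 : G) ∈ A) {n k r I M t : ℕ} {L R : ℝ}
    (hr : 0 < r) (hI : 1 ≤ I) (hn : k * (I * r) ≤ n)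
    (hL : ((n • A + n • A).card : ℝ) ≤ L * (n • A).card)
    (hR : ((n • A).card : ℝ) ≤ R * A.card) (hRI : R < (13 / 12) ^ (I - 1))
    (hk : 4 * L ^ 4 ≤ 4 ^ k) (hMt : 3 * M * t + 1 ≤ 2 * r) (hMr : M ≤ r)
    (hM : 8 * L ^ 4 * R < ((t : ℝ) + 1) ^ M) :
    ∃ (m : ℕ) (B : Set (Fin m → ℝ)) (ψ : (Fin m → ℤ) →+ G) (H : AddSubgroup G),
      m < M ∧ Body B ∧ Finite H ∧ ((cpr (lat B) ψ H).ncard : ℝ) ≤ L ^ 6 * (n • A).card ∧
      ∀ x ∈ n • A - n • A, ∃ v ∈ lat B, ∃ h ∈ H, x = ψ v + h := by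
  classical
  have hA : A.Nonempty := ⟨0, h0⟩
  have hA0 : (0 : ℝ) < A.card := by exact_mod_cast hA.card_pos
  have hP : (n • A).Nonempty := hA.nsmul
  have hP0 : (0 : ℝ) < (n • A).card := by exact_mod_cast hP.card_pos
  have hr' : (1 : ℝ) ≤ r := by exact_mod_cast hr
  obtain ⟨S, hfin, hsize, hbohr, hAS⟩ := bohr_data h0 hr hI hn hL
    (lt_of_le_of_lt hR (mul_lt_mul_of_pos_right hRI hA0)) hk
  obtain ⟨ρ, hρdef⟩ : ∃ ρ : ℝ, ρ = (1 / 12) / r := ⟨_, rfl⟩
  rw [← hρdef] at hAS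
  have hρr : ρ * r = 1 / 12 := by rw [hρdef]; field_simp
  have hρ0 : 0 < ρ := by rw [hρdef]; positivity
  have hρ12 : ρ ≤ 1 / 12 := by
    rw [hρdef, div_le_iff₀ (by linarith)]
    linarith
  obtain ⟨m, N, ψ, hN, h1, h2, hspan⟩ := lattice_repr S hfin hρ0.le (by linarith : ρ ≤ 1 / 6)
  -- the rank
  have hmM : m < M := by
    by_contra hcon
    push Not at hcon
    have h3 := dim_aux (a := (A.card : ℝ)) (V := 8 * L ^ 4 * R) (y := 0) hfin hN hA0 h1 h2 hspan
      hρ0 hρ12 (M := M) (t := t) hcon (by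
        have h4 : 3 * (M : ℝ) * t + 1 ≤ 2 * r := by exact_mod_cast hMt
        have h5 := mul_le_mul_of_nonneg_right h4 hρ0.le
        linarith) (by
        rw [neg_zero, Real.exp_zero, mul_one]
        have hfinρ : (bohr S ρ).Finite := hfin.subset (main_bohr_mono (by linarith))
        have h4 : ((A : Set G)).ncard ≤ (bohr S ρ).ncard :=
          Set.ncard_le_ncard (fun a ha => hAS a (Finset.mem_coe.1 ha)) hfinρ
        rw [Set.ncard_coe_finset] at h4
        exact_mod_cast h4) (by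
        have hL4 : (0 : ℝ) ≤ 8 * L ^ 4 := by positivity
        calc ((bohr S (1 / 6)).ncard : ℝ) ≤ 8 * L ^ 4 * (n • A).card := hsize
          _ ≤ 8 * L ^ 4 * (R * A.card) := mul_le_mul_of_nonneg_left hR hL4
          _ = 8 * L ^ 4 * R * A.card := by ring)
    rw [Real.exp_zero, mul_one] at h3
    linarith
  -- the lifts
  have hlift : ∀ a : G, ∃ c : Fin m → ℤ, a ∈ A → (c ∈ LL N ρ ∧ a - ψ c ∈ ann S) := by
    intro a
    by_cases ha : a ∈ A
    · obtain ⟨c, hc1, hc2⟩ := h2 a (hAS a ha)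
      exact ⟨c, fun _ => ⟨hc1, hc2⟩⟩
    · exact ⟨0, fun h => absurd h ha⟩
  choose c hc using hlift
  have hcN : ∀ a ∈ A, c a ∈ LL N ρ := fun a ha => (hc a ha).1
  have hcH : ∀ a ∈ A, a - ψ (c a) ∈ ann S := fun a ha => (hc a ha).2
  set D : Set (Fin m → ℝ) := (fun a => re (c a)) '' (A : Set G) with hD
  have hDfin : D.Finite := (Finset.finite_toSet A).image _
  have hDne : D.Nonempty := ⟨_, 0, Finset.mem_coe.2 h0, rfl⟩
  have hDDne : (D - D).Nonempty := hDne.sub hDne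
  -- the symmetric convex set
  set B₀ : Set (Fin m → ℝ) := (n : ℝ) • convexHull ℝ (D - D) with hB₀
  have hsym : Sym B₀ := by
    have h3 : Sym (convexHull ℝ (D - D)) := by
      refine ⟨convex_convexHull ℝ _, (hDfin.sub hDfin).isCompact_convexHull ℝ, ?_,
        hDDne.convexHull⟩
      intro x hx
      have h4 : (convexHull ℝ) (-(D - D)) = -(convexHull ℝ (D - D)) := convexHull_neg _
      have h5 : -(D - D) = D - D := neg_sub D D
      rw [h5] at h4
      rw [h4]
      exact Set.neg_mem_neg.2 hx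
    exact h3.smul n
  obtain ⟨B, hB, hlatB⟩ := fatten hsym
  have := ann_finite hfin
  refine ⟨m, B, ψ, ann S, hmM, hB, this, ?_, ?_⟩
  · -- the size
    rw [hlatB]
    have hsub : cpr (lat B₀) ψ (ann S) ⊆ ((3 • (n • A) - 3 • (n • A) : Finset G) : Set G) := by
      rintro _ ⟨z, hz, h, hh, rfl⟩
      obtain ⟨x, hx, y, hy, hxy⟩ := rounding h1 c hcH hcN h0 (by
        have h3 : (m : ℝ) + 1 ≤ r := by exact_mod_cast (Nat.succ_le_of_lt hmM).trans hMr
        have h4 := mul_le_mul_of_nonneg_right h3 hρ0.le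
        linarith) n z hz hh
      have h5 := hbohr _ hxy
      obtain ⟨p, hp, q, hq, hpq⟩ := Finset.mem_sub.1 h5
      rw [Finset.mem_coe]
      have h3P : (3 : ℕ) • (n • A) = n • A + (n • A + n • A) := by
        rw [show (3 : ℕ) = 1 + (1 + 1) by norm_num, add_smul, add_smul, one_smul]
      have e : ψ z + h = (x + p) - (y + q) := by
        have : ψ z + h = (x - y) + (ψ z + h - (x - y)) := by abel
        rw [this, ← hpq]; abel
      rw [e, h3P]
      exact Finset.sub_mem_sub (Finset.add_mem_add hx hp) (Finset.add_mem_add hy hq)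
    have h3 := Set.ncard_le_ncard hsub (Finset.finite_toSet _)
    rw [Set.ncard_coe_finset] at h3
    have h4 := Finset.pluennecke_ruzsa_inequality_nsmul_sub_nsmul_add hP (n • A) 3 3
    have h5 := (NNRat.cast_le (K := ℝ)).2 h4
    push_cast at h5
    calc ((cpr (lat B₀) ψ (ann S)).ncard : ℝ) ≤ ((3 • (n • A) - 3 • (n • A) : Finset G).card : ℝ) := by
          exact_mod_cast h3
      _ ≤ (((n • A + n • A).card : ℝ) / (n • A).card) ^ (3 + 3) * (n • A).card := h5
      _ ≤ L ^ 6 * (n • A).card := by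
          refine mul_le_mul_of_nonneg_right ?_ hP0.le
          refine pow_le_pow_left₀ (by positivity) ?_ 6
          rw [div_le_iff₀ hP0]
          exact hL
  · intro x hx
    obtain ⟨p, hp, q, hq, rfl⟩ := Finset.mem_sub.1 hx
    obtain ⟨v, hv, hvp⟩ := lift_nsmul c hcH hA n p hp
    obtain ⟨w, hw, hwq⟩ := lift_nsmul c hcH hA n q hq
    refine ⟨v - w, ?_, (p - ψ v) - (q - ψ w), (ann S).sub_mem hvp hwq, ?_⟩
    · rw [hlatB]
      show re (v - w) ∈ B₀
      obtain ⟨a, ha, hav⟩ := hv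
      obtain ⟨b, hb, hbw⟩ := hw
      rw [hB₀, convexHull_sub, re_sub, ← hav, ← hbw]
      exact ⟨a - b, Set.sub_mem_sub ha hb, smul_sub _ _ _⟩
    · rw [map_sub]; abel

end Pool.Agent.H98.Sum
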