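import Mathlib

/-!
# Large iterated sumsets: the parameters
-/

set_option autoImplicit false

namespace Pool.Agent.H98.Sum

theorem params (c δ : ℝ) (hc : 1 ≤ c) (hδ : 0 < δ) (hδ1 : δ ≤ 1) :
    ∃ C D : ℝ, 0 < C ∧ ∀ (K : ℝ) (n : ℕ), 1 ≤ K → C * (1 + Real.log K) ^ (3 + δ) ≤ n →
      ∃ k r I M t : ℕ, 0 < r ∧ 1 ≤ I ∧ k * (I * r) ≤ n ∧
        (n : ℝ) ^ (c * Real.log (2 * K)) < (13 / 12) ^ (I - 1) ∧ 4 * K ^ 12 ≤ 4 ^ k ∧
        3 * M * t + 1 ≤ 2 * r ∧ M ≤ r ∧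
        8 * K ^ 12 * (n : ℝ) ^ (c * Real.log (2 * K)) < ((t : ℝ) + 1) ^ M ∧
        ∀ m : ℕ, m < M → (m : ℝ) ≤ D * Real.log (2 * K) := by
  obtain ⟨η, hη⟩ : ∃ η : ℝ, η = δ / 8 := ⟨_, rfl⟩
  have hη0 : 0 < η := by rw [hη]; positivity
  have hη1 : η ≤ 1 / 8 := by rw [hη]; linarith
  obtain ⟨C₂, hC₂⟩ : ∃ C₂ : ℝ, C₂ = (c + 16) / η := ⟨_, rfl⟩
  have hC₂η : C₂ * η = c + 16 := by rw [hC₂]; field_simp
  have hC₂1 : 1 ≤ C₂ := by
    rw [hC₂, le_div_iff₀ hη0]; linarith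
  obtain ⟨C₄, hC₄⟩ : ∃ C₄ : ℝ, C₄ = 1200 * c * C₂ / η := ⟨_, rfl⟩
  have hC₄η : C₄ * η = 1200 * c * C₂ := by rw [hC₄]; field_simp
  have hC₄1 : 1 ≤ C₄ := by
    rw [hC₄, le_div_iff₀ hη0]; nlinarith
  obtain ⟨C, hC⟩ : ∃ C : ℝ, C = C₄ ^ 2 + 3 := ⟨_, rfl⟩
  have hC3 : 3 ≤ C := by rw [hC]; nlinarith
  have hC0 : 0 < C := by linarith
  refine ⟨C, 2 * C₂, hC0, ?_⟩
  intro K n hK hn
  have hK0 : 0 < K := by linarith
  have hlK : 0 ≤ Real.log K := Real.log_nonneg hK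
  obtain ⟨w, hw⟩ : ∃ w : ℝ, w = 1 + Real.log K := ⟨_, rfl⟩
  rw [← hw] at hn
  have hw1 : 1 ≤ w := by rw [hw]; linarith
  have hw0 : 0 < w := by linarith
  have hl2 := Real.log_two_gt_d9
  have hl2' := Real.log_two_lt_d9
  have hκ : Real.log (2 * K) = Real.log 2 + Real.log K := Real.log_mul (by norm_num) hK0.ne'
  have hκw : Real.log (2 * K) ≤ w := by rw [hκ, hw]; linarith
  have hwκ : w ≤ 2 * Real.log (2 * K) := by rw [hκ, hw]; linarith
  have hκ0 : 0 ≤ Real.log (2 * K) := by rw [hκ]; linarith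
  have hwp : 1 ≤ w ^ (3 + δ) := Real.one_le_rpow hw1 (by linarith)
  have hnC : C ≤ n := by
    calc C = C * 1 := (mul_one C).symm
      _ ≤ C * w ^ (3 + δ) := mul_le_mul_of_nonneg_left hwp hC0.le
      _ ≤ n := hn
  have hn0 : (0 : ℝ) < n := by linarith
  obtain ⟨x, hx⟩ : ∃ x : ℝ, x = Real.log n := ⟨_, rfl⟩
  have hnx : (n : ℝ) = Real.exp x := by rw [hx, Real.exp_log hn0]
  have hx1 : 1 ≤ x := by
    rw [hx, Real.le_log_iff_exp_le hn0]
    have := Real.exp_one_lt_d9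
    linarith
  have hx0 : 0 < x := by linarith
  have hlw : 0 ≤ Real.log w := Real.log_nonneg hw1
  have hlC₄ : 0 ≤ Real.log C₄ := Real.log_nonneg hC₄1
  have hxC : Real.log C + (3 + δ) * Real.log w ≤ x := by
    rw [hx, ← Real.log_rpow hw0, ← Real.log_mul hC0.ne' (by positivity)]
    exact Real.log_le_log (by positivity) hn
  have hlC : 2 * Real.log C₄ ≤ Real.log C := by
    have h1 : 2 * Real.log C₄ = Real.log (C₄ ^ 2) := by rw [Real.log_pow]; push_cast; ring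
    rw [h1]
    exact Real.log_le_log (by positivity) (by rw [hC]; linarith)
  -- the main inequality
  obtain ⟨E, hE⟩ : ∃ E : ℝ, E = Real.exp (η * x) := ⟨_, rfl⟩
  have hE0 : 0 < E := by rw [hE]; exact Real.exp_pos _
  have hE1 : 1 ≤ E := by rw [hE]; exact Real.one_le_exp (by positivity)
  have hxE : η * x ≤ E := by
    rw [hE]
    have := Real.add_one_le_exp (η * x)
    linarith
  have hmain : C₄ * w ^ 3 * E ^ 2 ≤ n := by
    have h1 : C₄ * w ^ 3 * E ^ 2 = Real.exp (Real.log C₄ + 3 * Real.log w + 2 * (η * x)) := by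
      rw [Real.exp_add, Real.exp_add, Real.exp_log (by linarith), hE]
      congr 1
      · congr 1
        rw [show (3 : ℝ) * Real.log w = ((3 : ℕ) : ℝ) * Real.log w by norm_num, Real.exp_nat_mul,
          Real.exp_log hw0]
      · rw [← Real.exp_nat_mul]
        norm_num
    rw [h1, hnx]
    refine Real.exp_le_exp.2 ?_
    have h2 : (1 - 2 * η) * (Real.log C + (3 + δ) * Real.log w) ≤ (1 - 2 * η) * x :=
      mul_le_mul_of_nonneg_left hxC (by linarith)
    have h3 : Real.log C₄ ≤ (1 - 2 * η) * Real.log C := by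
      have h5 : (1 / 2) * Real.log C ≤ (1 - 2 * η) * Real.log C :=
        mul_le_mul_of_nonneg_right (by linarith) (by linarith)
      linarith
    have h4 : 3 * Real.log w ≤ (1 - 2 * η) * ((3 + δ) * Real.log w) := by
      have h5 : 3 ≤ (1 - 2 * η) * (3 + δ) := by
        have h6 : 0 ≤ δ * (1 - δ) := mul_nonneg hδ.le (by linarith)
        have h7 : (1 - 2 * η) * (3 + δ) = 3 + (δ * (1 - δ)) / 4 := by rw [hη]; ring
        rw [h7]; linarith
      calc 3 * Real.log w ≤ ((1 - 2 * η) * (3 + δ)) * Real.log w :=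
            mul_le_mul_of_nonneg_right h5 hlw
        _ = _ := by ring
    have h6 : (1 - 2 * η) * Real.log C + (1 - 2 * η) * ((3 + δ) * Real.log w) ≤ (1 - 2 * η) * x := by
      rw [← mul_add]; exact h2
    have h7 : (1 - 2 * η) * x = x - 2 * (η * x) := by ring
    rw [h7] at h6
    linarith
  -- the parameters
  obtain ⟨k, hk⟩ : ∃ k : ℕ, k = ⌈9 * w⌉₊ := ⟨_, rfl⟩
  obtain ⟨I, hI⟩ : ∃ I : ℕ, I = ⌈13 * c * w * x⌉₊ + 2 := ⟨_, rfl⟩
  obtain ⟨M, hM⟩ : ∃ M : ℕ, M = ⌈C₂ * w⌉₊ := ⟨_, rfl⟩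
  obtain ⟨t, ht⟩ : ∃ t : ℕ, t = ⌈E⌉₊ := ⟨_, rfl⟩
  have hk1 : 9 * w ≤ k := by rw [hk]; exact Nat.le_ceil _
  have hk2 : (k : ℝ) ≤ 10 * w := by
    have := (Nat.ceil_lt_add_one (by positivity : 0 ≤ 9 * w)).le
    rw [← hk] at this
    linarith
  have hcwx : 1 ≤ c * w * x := by
    have h1 : 1 ≤ c * w := one_le_mul_of_one_le_of_one_le hc hw1
    exact one_le_mul_of_one_le_of_one_le h1 hx1
  have hI1 : 13 * c * w * x + 2 ≤ I := by
    rw [hI]; push_cast
    have := Nat.le_ceil (13 * c * w * x)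
    linarith
  have hI2 : (I : ℝ) ≤ 16 * (c * w * x) := by
    have := (Nat.ceil_lt_add_one (by positivity : 0 ≤ 13 * c * w * x)).le
    rw [hI]; push_cast
    linarith
  have hM1 : C₂ * w ≤ M := by rw [hM]; exact Nat.le_ceil _
  have hC₂w : 1 ≤ C₂ * w := one_le_mul_of_one_le_of_one_le hC₂1 hw1
  have hM2 : (M : ℝ) ≤ 2 * (C₂ * w) := by
    have := (Nat.ceil_lt_add_one (by positivity : 0 ≤ C₂ * w)).le
    rw [← hM] at this
    linarith
  have ht1 : E ≤ t := by rw [ht]; exact Nat.le_ceil _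
  have ht2 : (t : ℝ) ≤ 2 * E := by
    have := (Nat.ceil_lt_add_one hE0.le).le
    rw [← ht] at this
    linarith
  have hkpos : 0 < k := by
    rw [Nat.pos_iff_ne_zero]
    rintro h
    rw [h] at hk1
    norm_num at hk1
    linarith
  have hIpos : 0 < I := by omega
  obtain ⟨r, hr⟩ : ∃ r : ℕ, r = n / (k * I) := ⟨_, rfl⟩
  have hnr : k * (I * r) ≤ n := by
    rw [hr, ← mul_assoc]; exact Nat.mul_div_le _ _
  have hrn : (n : ℝ) < (k * I) * (r + 1) := by
    have h1 := Nat.lt_mul_div_succ n (Nat.mul_pos hkpos hIpos)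
    rw [← hr] at h1
    exact_mod_cast h1
  have hkI : (k : ℝ) * I ≤ 160 * (c * w ^ 2 * x) := by
    calc (k : ℝ) * I ≤ (10 * w) * (16 * (c * w * x)) :=
          mul_le_mul hk2 hI2 (Nat.cast_nonneg _) (by positivity)
      _ = _ := by ring
  have hr7 : 7.5 * (C₂ * w * E) < r + 1 := by
    have hr0 : (0 : ℝ) < r + 1 := by positivity
    have h1 : C₄ * w ^ 3 * E ^ 2 < 160 * (c * w ^ 2 * x) * (r + 1) := by
      calc C₄ * w ^ 3 * E ^ 2 ≤ n := hmain
        _ < (k * I) * (r + 1) := hrn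
        _ ≤ _ := mul_le_mul_of_nonneg_right hkI hr0.le
    have h2 : (C₄ * w ^ 3 * E ^ 2) * η < (160 * (c * w ^ 2 * x) * (r + 1)) * η :=
      mul_lt_mul_of_pos_right h1 hη0
    have h3 : (160 * (c * w ^ 2 * x) * (r + 1)) * η ≤ 160 * (c * w ^ 2 * E) * (r + 1) := by
      calc (160 * (c * w ^ 2 * x) * (r + 1)) * η = (160 * c * w ^ 2 * (r + 1)) * (η * x) := by ring
        _ ≤ (160 * c * w ^ 2 * (r + 1)) * E := mul_le_mul_of_nonneg_left hxE (by positivity)
        _ = _ := by ring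
    have h4 : (C₄ * w ^ 3 * E ^ 2) * η = (160 * (c * w ^ 2 * E)) * (7.5 * (C₂ * w * E)) := by
      calc (C₄ * w ^ 3 * E ^ 2) * η = (C₄ * η) * (w ^ 3 * E ^ 2) := by ring
        _ = (1200 * c * C₂) * (w ^ 3 * E ^ 2) := by rw [hC₄η]
        _ = _ := by ring
    rw [h4] at h2
    have h5 : 0 < 160 * (c * w ^ 2 * E) := by positivity
    exact lt_of_mul_lt_mul_left (lt_of_lt_of_le h2 h3) h5.le
  have hMt : 3 * M * t + 1 ≤ 2 * r := by
    have hCE : 1 ≤ C₂ * w * E := one_le_mul_of_one_le_of_one_le hC₂w hE1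
    have h1 : (M : ℝ) * t ≤ 4 * (C₂ * w * E) := by
      calc (M : ℝ) * t ≤ (2 * (C₂ * w)) * (2 * E) := mul_le_mul hM2 ht2 (Nat.cast_nonneg _)
            (by positivity)
        _ = _ := by ring
    have h2 : ((3 * M * t + 1 : ℕ) : ℝ) ≤ ((2 * r : ℕ) : ℝ) := by
      push_cast
      linarith
    exact_mod_cast h2
  have ht0 : 1 ≤ t := by
    rw [Nat.one_le_iff_ne_zero]
    rintro h
    rw [h] at ht1
    norm_num at ht1
    linarith
  have hMM : M ≤ M * t := Nat.le_mul_of_pos_right _ ht0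
  have hMt' : 3 * (M * t) + 1 ≤ 2 * r := by rw [← mul_assoc]; exact hMt
  have hnpow : (n : ℝ) ^ (c * Real.log (2 * K)) = Real.exp (x * (c * Real.log (2 * K))) := by
    rw [Real.rpow_def_of_pos hn0, hx]
  have hexp1 : x * (c * Real.log (2 * K)) ≤ c * w * x := by
    calc x * (c * Real.log (2 * K)) ≤ x * (c * w) :=
          mul_le_mul_of_nonneg_left (mul_le_mul_of_nonneg_left hκw (by linarith)) hx0.le
      _ = _ := by ring
  refine ⟨k, r, I, M, t, by omega, by omega, hnr, ?_, ?_, hMt, by omega, ?_, ?_⟩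
  · have hl13 : (1 : ℝ) / 13 ≤ Real.log (13 / 12) := by
      have := Real.one_sub_inv_le_log_of_pos (show (0 : ℝ) < 13 / 12 by norm_num)
      norm_num at this
      norm_num
      linarith
    have hIm : ((I - 1 : ℕ) : ℝ) = I - 1 := by
      rw [Nat.cast_sub (by omega)]; simp
    have h1 : (13 / 12 : ℝ) ^ (I - 1) = Real.exp (((I - 1 : ℕ) : ℝ) * Real.log (13 / 12)) := by
      rw [Real.exp_nat_mul, Real.exp_log (by norm_num)]
    rw [h1, hnpow]
    refine Real.exp_lt_exp.2 ?_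
    have h2 : (13 * c * w * x + 1) * (1 / 13) ≤ ((I - 1 : ℕ) : ℝ) * Real.log (13 / 12) := by
      refine mul_le_mul ?_ hl13 (by norm_num) (Nat.cast_nonneg _)
      rw [hIm]; linarith
    linarith
  · have h1 : (4 : ℝ) ^ k = Real.exp (k * Real.log 4) := by
      rw [Real.exp_nat_mul, Real.exp_log (by norm_num)]
    have h4 : Real.log 4 = 2 * Real.log 2 := by
      rw [show (4 : ℝ) = 2 ^ 2 by norm_num, Real.log_pow]; push_cast; ring
    have h2 : 4 * K ^ 12 = Real.exp (Real.log 4 + 12 * Real.log K) := by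
      rw [Real.exp_add, Real.exp_log (by norm_num),
        show (12 : ℝ) * Real.log K = ((12 : ℕ) : ℝ) * Real.log K by norm_num, Real.exp_nat_mul,
        Real.exp_log hK0]
    rw [h1, h2]
    refine Real.exp_le_exp.2 ?_
    have h5 : (9 * w) * Real.log 4 ≤ k * Real.log 4 :=
      mul_le_mul_of_nonneg_right hk1 (by rw [h4]; linarith)
    have h6 : Real.log K = w - 1 := by rw [hw]; ring
    rw [h6]
    rw [h4] at h5 ⊢
    have h7 : (9 * w) * (2 * 0.6931471803) ≤ (9 * w) * (2 * Real.log 2) :=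
      mul_le_mul_of_nonneg_left (by linarith) (by linarith)
    linarith
  · have h1 : 8 * K ^ 12 * (n : ℝ) ^ (c * Real.log (2 * K)) =
        Real.exp (3 * Real.log 2 + 12 * Real.log K + x * (c * Real.log (2 * K))) := by
      rw [hnpow, Real.exp_add, Real.exp_add,
        show (12 : ℝ) * Real.log K = ((12 : ℕ) : ℝ) * Real.log K by norm_num, Real.exp_nat_mul,
        Real.exp_log hK0, show (3 : ℝ) * Real.log 2 = ((3 : ℕ) : ℝ) * Real.log 2 by norm_num,
        Real.exp_nat_mul, Real.exp_log (by norm_num)]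
      norm_num
    have h2 : Real.exp ((M : ℝ) * (η * x)) ≤ ((t : ℝ) + 1) ^ M := by
      rw [Real.exp_nat_mul, ← hE]
      exact pow_le_pow_left₀ hE0.le (by linarith) M
    refine lt_of_lt_of_le ?_ h2
    rw [h1]
    refine Real.exp_lt_exp.2 ?_
    have h3 : (c + 16) * (w * x) ≤ (M : ℝ) * (η * x) := by
      calc (c + 16) * (w * x) = (C₂ * η) * (w * x) := by rw [hC₂η]
        _ = (C₂ * w) * (η * x) := by ring
        _ ≤ _ := mul_le_mul_of_nonneg_right hM1 (by positivity)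
    have h6 : Real.log K = w - 1 := by rw [hw]; ring
    rw [h6]
    have h7 : w ≤ w * x := le_mul_of_one_le_right hw0.le hx1
    have h8 : (c + 16) * (w * x) = c * w * x + 16 * (w * x) := by ring
    rw [h8] at h3
    linarith
  · intro m hm
    rw [hM, Nat.lt_ceil] at hm
    calc (m : ℝ) ≤ C₂ * w := hm.le
      _ ≤ C₂ * (2 * Real.log (2 * K)) := mul_le_mul_of_nonneg_left hwκ (by linarith)
      _ = _ := by ring

end Pool.Agent.H98.Sum
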