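import Pool.Agent.H98.Sum.Main
import Pool.Agent.H98.Sum.Num

/-!
# The polynomial Freiman-Ruzsa statement for sets commensurable with large iterated sumsets
-/

set_option autoImplicit false

namespace Pool.Agent.H98.Sum.Large

open Finset Pool.Agent.H98.Sum
open scoped Pointwise

universe u

/-- **Main theorem.** For all real `c` and `δ > 0` there is `C` such that the following holds for every
abelian group `Γ`, every `K ≥ 1` and all finite nonempty `A, B ⊆ Γ`. Let `S = A + ... + A` be the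
`n`-fold sumset (here written as a sum in the additive monoid of the finite subsets of `Γ`), where
`n ≥ C (1 + log K)^(3 + δ)`. If `|S| ≤ n^(c log (2K)) |A|`, `|B + S| ≤ K |S|` and `|S| ≤ K |B|`, then
`B` satisfies the conclusion of the polynomial Freiman-Ruzsa conjecture with the constant `C`. -/
theorem result (c δ : ℝ) (hδ : 0 < δ) : ∃ C : ℝ, ∀ (Γ : Type u) [AddCommGroup Γ] [DecidableEq Γ]
    (K : ℝ) (n : ℕ) (A B : Finset Γ), 1 ≤ K → A.Nonempty → B.Nonempty →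
    C * (1 + Real.log K) ^ (3 + δ) ≤ n →
    ((∑ _i ∈ Finset.range n, A).card : ℝ) ≤ (n : ℝ) ^ (c * Real.log (2 * K)) * A.card →
    ((B + ∑ _i ∈ Finset.range n, A).card : ℝ) ≤ K * (∑ _i ∈ Finset.range n, A).card →
    ((∑ _i ∈ Finset.range n, A).card : ℝ) ≤ K * B.card →
    ∃ (d : ℕ) (Q : Set (Fin d → ℝ)) (ψ : (Fin d → ℤ) →+ Γ) (H : AddSubgroup Γ) (T : Finset Γ),
      (d : ℝ) ≤ C * Real.log (2 * K) ∧
      Convex ℝ Q ∧ IsCompact Q ∧ (interior Q).Nonempty ∧ (∀ x ∈ Q, -x ∈ Q) ∧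
      Finite H ∧
      {x : Fin d → ℤ | (fun i => (x i : ℝ)) ∈ Q}.ncard * Nat.card H ≤ B.card ∧
      (T.card : ℝ) ≤ C * K ^ C ∧
      ∀ b ∈ B, ∃ t ∈ T, ∃ x : Fin d → ℤ, (fun i => (x i : ℝ)) ∈ Q ∧
        ∃ h ∈ H, b = t + ψ x + h := by
  obtain ⟨C₁, D, hC₁, hpar⟩ := params (max c 1) (min δ 1) (le_max_right _ _) (lt_min hδ one_pos)
    (min_le_right _ _)
  obtain ⟨C₂, hC₂, hconcl⟩ := concl_of_params.{u} D
  obtain ⟨C, hC, h1, h2⟩ : ∃ C : ℝ, 0 < C ∧ C₁ + 1 ≤ C ∧ C₂ ≤ C :=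
    ⟨C₁ + C₂ + 1, by positivity, by linarith, by linarith⟩
  refine ⟨C, ?_⟩
  intro Γ _ _ K n A B hK hA hB hn hgrow hBA hAB
  rw [Finset.sum_const, Finset.card_range] at hgrow hBA hAB
  have hK0 : 0 < K := by linarith
  have hlK : 0 ≤ Real.log K := Real.log_nonneg hK
  have hl2K : 0 ≤ Real.log (2 * K) := Real.log_nonneg (by linarith)
  have hw1 : 1 ≤ 1 + Real.log K := by linarith
  have hn' : C₁ * (1 + Real.log K) ^ (3 + min δ 1) ≤ n := by
    refine le_trans ?_ hn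
    have e1 : (1 + Real.log K) ^ (3 + min δ 1) ≤ (1 + Real.log K) ^ (3 + δ) :=
      Real.rpow_le_rpow_of_exponent_le hw1 (by linarith [min_le_left δ 1])
    exact mul_le_mul (by linarith) e1 (by positivity) hC.le
  have hn1 : (1 : ℝ) ≤ n := by
    have e1 : (1 : ℝ) ≤ (1 + Real.log K) ^ (3 + δ) := Real.one_le_rpow hw1 (by linarith)
    have e2 : C * 1 ≤ C * (1 + Real.log K) ^ (3 + δ) := mul_le_mul_of_nonneg_left e1 hC.le
    linarith
  obtain ⟨k, r, I, M, t, hr, hI, hkn, hRI, hk, hMt, hMr, hM, hmD⟩ := hpar K n hK hn'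
  have hpow : (n : ℝ) ^ (c * Real.log (2 * K)) ≤ (n : ℝ) ^ (max c 1 * Real.log (2 * K)) :=
    Real.rpow_le_rpow_of_exponent_le hn1 (mul_le_mul_of_nonneg_right (le_max_left _ _) hl2K)
  obtain ⟨d, Q, ψ, H, T, g1, g2, g3, g4, g5, g6⟩ := hconcl Γ K A B n k r I M t _ hK hA hB hBA hAB hr hI
    hkn (hgrow.trans (mul_le_mul_of_nonneg_right hpow (Nat.cast_nonneg _))) hRI hk hMt hMr hM hmD
  refine ⟨d, Q, ψ, H, T, ?_, g2.1, g2.2.1, g2.2.2.1, g2.2.2.2, g3, g4, ?_, ?_⟩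
  · exact g1.trans (mul_le_mul_of_nonneg_right h2 hl2K)
  · refine g5.trans (mul_le_mul h2 (Real.rpow_le_rpow_of_exponent_le hK h2) (by positivity) hC.le)
  · intro b hb
    obtain ⟨t, ht, x, hx, h, hh, he⟩ := g6 b hb
    exact ⟨t, ht, x, hx, h, hh, he⟩

end Pool.Agent.H98.Sum.Large
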