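import Pool.Agent.H98.Sum.Core
import Pool.Graph.R_seed8.H112R2.Final

/-!
# Large iterated sumsets: arbitrary groups, and the conclusion
-/

set_option autoImplicit false

namespace Pool.Agent.H98.Sum

open Finset H112 Pool.Agent.Y806.DF Pool.Agent.H608VF Pool.Agent.R92.Star
open scoped Pointwise

universe u

section
variable {G : Type u} [AddCommGroup G] [DecidableEq G]

theorem core' {A : Finset G} (h0 : (0 : G) ∈ A) {n k r I M t : ℕ} {L R : ℝ}
    (hr : 0 < r) (hI : 1 ≤ I) (hn : k * (I * r) ≤ n)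
    (hL : ((n • A + n • A).card : ℝ) ≤ L * (n • A).card)
    (hR : ((n • A).card : ℝ) ≤ R * A.card) (hRI : R < (13 / 12) ^ (I - 1))
    (hk : 4 * L ^ 4 ≤ 4 ^ k) (hMt : 3 * M * t + 1 ≤ 2 * r) (hMr : M ≤ r)
    (hM : 8 * L ^ 4 * R < ((t : ℝ) + 1) ^ M) :
    ∃ (m : ℕ) (B : Set (Fin m → ℝ)) (ψ : (Fin m → ℤ) →+ G) (H : AddSubgroup G),
      m < M ∧ Body B ∧ Finite H ∧ ((cpr (lat B) ψ H).ncard : ℝ) ≤ L ^ 6 * (n • A).card ∧
      ∀ x ∈ n • A - n • A, ∃ v ∈ lat B, ∃ h ∈ H, x = ψ v + h := by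
  classical
  obtain ⟨Γ, hΓ⟩ : ∃ Γ : AddSubgroup G, Γ = AddSubgroup.closure (A : Set G) := ⟨_, rfl⟩
  obtain ⟨A', hA'⟩ := exists_model A Γ (fun a ha => by
    rw [hΓ]; exact AddSubgroup.subset_closure ha)
  have hinj : Function.Injective Γ.subtype := Γ.subtype_injective
  have : AddGroup.FG Γ := by
    rw [AddGroup.fg_iff_addSubgroup_fg]
    exact ⟨A, hΓ.symm⟩
  have himg : ∀ j : ℕ, (j • A').image Γ.subtype = j • A := by
    intro j
    induction j with
    | zero => rw [zero_smul, zero_smul, Finset.image_zero, map_zero]; rfl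
    | succ j ih => rw [succ_nsmul, succ_nsmul, Finset.image_add, ih, hA']
  have hcard : ∀ j : ℕ, (j • A').card = (j • A).card := by
    intro j
    rw [← himg, Finset.card_image_of_injective _ hinj]
  have hcardA : A'.card = A.card := by
    rw [← hA', Finset.card_image_of_injective _ hinj]
  have hcard2 : (n • A' + n • A').card = (n • A + n • A).card := by
    rw [← himg, ← Finset.image_add, Finset.card_image_of_injective _ hinj]
  have h0' : (0 : Γ) ∈ A' := by
    rw [← hA'] at h0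
    obtain ⟨a, ha, ha0⟩ := Finset.mem_image.1 h0
    have : a = 0 := hinj (by rw [ha0, map_zero])
    rwa [this] at ha
  obtain ⟨m, B, ψ, H, hm, hB, hH, hsz, hcov⟩ := core (A := A') h0' hr hI hn
    (by rw [hcard2, hcard]; exact hL) (by rw [hcardA, hcard]; exact hR) hRI hk hMt hMr hM
  refine ⟨m, B, Γ.subtype.comp ψ, H.map Γ.subtype, hm, hB, ?_, ?_, ?_⟩
  · have : (H.map Γ.subtype : Set G).Finite := by
      rw [AddSubgroup.coe_map]
      exact (Set.toFinite (H : Set Γ)).image _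
    exact this.to_subtype
  · have himg2 : cpr (lat B) (Γ.subtype.comp ψ) (H.map Γ.subtype) ⊆
        Γ.subtype '' cpr (lat B) ψ H := by
      rintro _ ⟨v, hv, _, ⟨h, hh, rfl⟩, rfl⟩
      exact ⟨ψ v + h, ⟨v, hv, h, hh, rfl⟩, by rw [map_add]; rfl⟩
    have hfin : (cpr (lat B) ψ H).Finite :=
      cpr_finite (lat_finite hB.2.1.isBounded) ψ H
    have h1 := (Set.ncard_le_ncard himg2 (hfin.image _)).trans (Set.ncard_image_le hfin)
    rw [← hcard]
    refine le_trans ?_ hsz
    exact_mod_cast h1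
  · intro x hx
    obtain ⟨p, hp, q, hq, rfl⟩ := Finset.mem_sub.1 hx
    rw [← himg] at hp hq
    obtain ⟨p', hp', rfl⟩ := Finset.mem_image.1 hp
    obtain ⟨q', hq', rfl⟩ := Finset.mem_image.1 hq
    obtain ⟨v, hv, h, hh, e⟩ := hcov (p' - q') (Finset.sub_mem_sub hp' hq')
    exact ⟨v, hv, Γ.subtype h, ⟨h, hh, rfl⟩, by rw [← map_sub, e, map_add]; rfl⟩

theorem card_add_sing (X : Finset G) (x : G) : (X + {x}).card = X.card := by
  rw [Finset.add_singleton]
  exact Finset.card_vadd_finset _ _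

end

/-- the conclusion, from the numerical hypotheses -/
theorem concl_of_params (D : ℝ) : ∃ C' : ℝ, 0 < C' ∧ ∀ (Γ : Type u) [AddCommGroup Γ]
    [DecidableEq Γ] (K : ℝ) (A B : Finset Γ) (n k r I M t : ℕ) (R : ℝ), 1 ≤ K → A.Nonempty →
    B.Nonempty → ((B + n • A).card : ℝ) ≤ K * (n • A).card → ((n • A).card : ℝ) ≤ K * B.card →
    0 < r → 1 ≤ I → k * (I * r) ≤ n → ((n • A).card : ℝ) ≤ R * A.card →
    R < (13 / 12) ^ (I - 1) → 4 * K ^ 12 ≤ 4 ^ k → 3 * M * t + 1 ≤ 2 * r → M ≤ r →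
    8 * K ^ 12 * R < ((t : ℝ) + 1) ^ M → (∀ m : ℕ, m < M → (m : ℝ) ≤ D * Real.log (2 * K)) →
    Concl C' K B := by
  classical
  obtain ⟨n₂, hn₂⟩ : ∃ n₂ : ℕ, D ≤ n₂ := exists_nat_ge D
  obtain ⟨q, hq⟩ : ∃ q : ℕ, q = 4 ^ n₂ := ⟨_, rfl⟩
  have hq1 : 1 ≤ q := by rw [hq]; exact Nat.one_le_pow _ _ (by norm_num)
  have hq1r : (1 : ℝ) ≤ q := by exact_mod_cast hq1
  obtain ⟨C₁, hC₁⟩ := concl_of_cov.{u} q (q + 19)
  obtain ⟨C', hC', hC'1⟩ : ∃ C' : ℝ, 0 < C' ∧ 3 * |C₁| ≤ C' := ⟨3 * |C₁| + 1, by positivity, by linarith⟩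
  refine ⟨C', hC', ?_⟩
  intro Γ _ _ K A B n k r I M t R hK hA hB hBA hAB hr hI hn hR hRI hk hMt hMr hM hmD
  have hK0 : 0 < K := by linarith
  have hP : (n • A).Nonempty := hA.nsmul
  have hP0 : (0 : ℝ) < (n • A).card := by exact_mod_cast hP.card_pos
  have hB0 : (0 : ℝ) < B.card := by exact_mod_cast hB.card_pos
  -- small doubling
  have hdoub : ((n • A + n • A).card : ℝ) ≤ K ^ 3 * (n • A).card := by
    have h1 := Finset.ruzsa_triangle_inequality_add_add_add (n • A) B (n • A)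
    have h2 : ((n • A + n • A).card : ℝ) * B.card ≤ (n • A + B).card * (B + n • A).card := by
      exact_mod_cast h1
    rw [add_comm (n • A) B] at h2
    have h3 : ((n • A + n • A).card : ℝ) * B.card ≤ (K ^ 3 * (n • A).card) * B.card := by
      calc _ ≤ _ := h2
        _ ≤ (K * (n • A).card) * (K * (n • A).card) :=
          mul_le_mul hBA hBA (Nat.cast_nonneg _) (by positivity)
        _ ≤ (K * (n • A).card) * (K * (K * B.card)) := by gcongr
        _ = _ := by ring
    exact le_of_mul_le_mul_right h3 hB0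
  have hdoubB : ((B + B).card : ℝ) ≤ K ^ 3 * B.card := by
    have h1 := Finset.ruzsa_triangle_inequality_add_add_add B (n • A) B
    have h2 : ((B + B).card : ℝ) * (n • A).card ≤ (B + n • A).card * (n • A + B).card := by
      exact_mod_cast h1
    rw [add_comm (n • A) B] at h2
    have h3 : ((B + B).card : ℝ) * (n • A).card ≤ (K ^ 3 * B.card) * (n • A).card := by
      calc _ ≤ _ := h2
        _ ≤ (K * (n • A).card) * (K * (n • A).card) :=
          mul_le_mul hBA hBA (Nat.cast_nonneg _) (by positivity)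
        _ ≤ (K * (K * B.card)) * (K * (n • A).card) := by gcongr
        _ = _ := by ring
    exact le_of_mul_le_mul_right h3 hP0
  -- the translate of `A` containing zero
  obtain ⟨a₀, ha₀⟩ := hA
  obtain ⟨A₀, hA₀⟩ : ∃ A₀ : Finset Γ, A₀ = A + {-a₀} := ⟨_, rfl⟩
  have h00 : (0 : Γ) ∈ A₀ := by
    rw [hA₀]
    exact Finset.mem_add.2 ⟨a₀, ha₀, -a₀, Finset.mem_singleton_self _, by abel⟩
  have hnA₀ : n • A₀ = n • A + {n • (-a₀)} := by
    rw [hA₀, nsmul_add]
    congr 1
    have : ∀ j : ℕ, j • ({-a₀} : Finset Γ) = {j • (-a₀)} := by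
      intro j
      induction j with
      | zero => rw [zero_smul, zero_smul]; rfl
      | succ j ih => rw [succ_nsmul, ih, Finset.singleton_add_singleton, succ_nsmul]
    exact this n
  have hcard0 : (n • A₀).card = (n • A).card := by
    rw [hnA₀, card_add_sing]
  have hcardA : A₀.card = A.card := by
    rw [hA₀, card_add_sing]
  have hcard2 : (n • A₀ + n • A₀).card = (n • A + n • A).card := by
    rw [hnA₀]
    have : n • A + {n • (-a₀)} + (n • A + {n • (-a₀)}) =
        (n • A + n • A) + {n • (-a₀) + n • (-a₀)} := by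
      rw [← Finset.singleton_add_singleton]
      abel
    rw [this, card_add_sing]
  have hcardB : (B + n • A₀).card = (B + n • A).card := by
    rw [hnA₀, ← add_assoc, card_add_sing]
  have e12 : (K ^ 3) ^ 4 = K ^ 12 := by rw [← pow_mul]
  obtain ⟨m, B', ψ, H, hmM, hB', hH, hsz, hcov⟩ := core' (A := A₀) (L := K ^ 3) (R := R) h00 hr hI hn
    (by rw [hcard2, hcard0]; exact hdoub) (by rw [hcard0, hcardA]; exact hR) hRI
    (by rw [e12]; exact hk) hMt hMr (by rw [e12]; exact hM)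
  -- covering `B`
  obtain ⟨T, hTB, hTK, hBT⟩ := Finset.ruzsa_covering_add (A := B) (B := n • A₀) (K := K)
    (Finset.Nonempty.nsmul ⟨0, h00⟩) (by rw [hcardB, hcard0]; exact hBA)
  have hK3 : 1 ≤ K ^ 3 := one_le_pow₀ hK
  have hbig : ∀ j : ℕ, j ≤ q + 19 → (K ^ 3) ^ j ≤ (q : ℝ) * (K ^ 3) ^ (q + 19) := by
    intro j hj
    calc (K ^ 3) ^ j ≤ (K ^ 3) ^ (q + 19) := pow_le_pow_right₀ hK3 hj
      _ = 1 * (K ^ 3) ^ (q + 19) := by rw [one_mul]
      _ ≤ _ := mul_le_mul_of_nonneg_right hq1r (by positivity)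
  obtain ⟨d, Q, θ, H', T', h1, h2, h3, h4, h5, h6⟩ := hC₁ Γ (K ^ 3) B hB hdoubB m B' ψ H T
    (by have := hbig 0 (by omega); rwa [pow_zero] at this)
    (by
      have h7 := four_pow hn₂ hK ((hmD m hmM).trans (le_refl _))
      rw [← hq] at h7
      refine h7.trans ?_
      refine mul_le_mul_of_nonneg_left ?_ (by positivity)
      calc K ^ q ≤ (K ^ 3) ^ q := pow_le_pow_left₀ hK0.le (by
            calc K = K ^ 1 := (pow_one K).symm
              _ ≤ K ^ 3 := pow_le_pow_right₀ hK (by norm_num)) q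
        _ ≤ (K ^ 3) ^ (q + 19) := pow_le_pow_right₀ hK3 (by omega))
    hB' hH
    (by
      refine hsz.trans ?_
      rw [hcard0]
      calc (K ^ 3) ^ 6 * ((n • A).card : ℝ) ≤ (K ^ 3) ^ 6 * (K * B.card) :=
            mul_le_mul_of_nonneg_left hAB (by positivity)
        _ ≤ (K ^ 3) ^ 6 * ((K ^ 3) * B.card) := by
            have : K ≤ K ^ 3 := by
              calc K = K ^ 1 := (pow_one K).symm
                _ ≤ K ^ 3 := pow_le_pow_right₀ hK (by norm_num)
            gcongr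
        _ = (K ^ 3) ^ 7 * B.card := by ring
        _ ≤ _ := mul_le_mul_of_nonneg_right (hbig 7 (by omega)) hB0.le)
    (by
      refine hTK.trans (le_trans ?_ (hbig 1 (by omega)))
      rw [pow_one]
      calc K = K ^ 1 := (pow_one K).symm
        _ ≤ K ^ 3 := pow_le_pow_right₀ hK (by norm_num))
    (by
      intro b hb
      obtain ⟨s, hs, x, hx, hsx⟩ := Finset.mem_add.1 (hBT hb)
      obtain ⟨v, hv, h, hh, e⟩ := hcov x hx
      exact ⟨s, hs, v, hv, h, hh, by rw [← hsx, e, add_assoc]⟩)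
  refine ⟨d, Q, θ, H', T', ?_, h2, h3, h4, ?_, h6⟩
  · refine h1.trans ?_
    have hl2 : 0 < Real.log 2 := Real.log_pos (by norm_num)
    have hlK : 0 ≤ Real.log K := Real.log_nonneg hK
    have e1 : Real.log (2 * K ^ 3) = Real.log 2 + 3 * Real.log K := by
      rw [Real.log_mul (by norm_num) (by positivity), Real.log_pow]
      push_cast; ring
    have e2 : Real.log (2 * K) = Real.log 2 + Real.log K := by
      rw [Real.log_mul (by norm_num) hK0.ne']
    rw [e1, e2]
    calc C₁ * (Real.log 2 + 3 * Real.log K) ≤ |C₁| * (Real.log 2 + 3 * Real.log K) :=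
          mul_le_mul_of_nonneg_right (le_abs_self _) (by positivity)
      _ ≤ |C₁| * (3 * (Real.log 2 + Real.log K)) :=
          mul_le_mul_of_nonneg_left (by linarith) (abs_nonneg _)
      _ = (3 * |C₁|) * (Real.log 2 + Real.log K) := by ring
      _ ≤ _ := mul_le_mul_of_nonneg_right hC'1 (by positivity)
  · refine h5.trans ?_
    have e1 : (K ^ 3) ^ C₁ ≤ K ^ C' := by
      rw [← Real.rpow_natCast K 3, ← Real.rpow_mul hK0.le]
      refine Real.rpow_le_rpow_of_exponent_le hK ?_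
      have : C₁ ≤ |C₁| := le_abs_self _
      have h8 : 0 ≤ |C₁| := abs_nonneg _
      push_cast
      linarith
    have h8 : C₁ ≤ C' := by
      have : C₁ ≤ |C₁| := le_abs_self _
      have h8 : 0 ≤ |C₁| := abs_nonneg _
      linarith
    calc C₁ * (K ^ 3) ^ C₁ ≤ C' * (K ^ 3) ^ C₁ := mul_le_mul_of_nonneg_right h8 (by positivity)
      _ ≤ C' * K ^ C' := mul_le_mul_of_nonneg_left e1 hC'.le

end Pool.Agent.H98.Sum
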