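import Pool.Graph.R_seed8.H112R2.Main

/-!
# Large iterated sumsets: the large spectrum of a Følner set
-/

set_option autoImplicit false

namespace Pool.Agent.H98.Sum

open Finset H112
open scoped Pointwise

variable {G : Type*} [AddCommGroup G] [DecidableEq G]

/-- a scale at which the iterated sumset grows slowly -/
theorem exists_folner (A : Finset G) {r I : ℕ} {R e : ℝ} (he : 0 ≤ e) (hI : 1 ≤ I)
    (hR : (((I * r) • A).card : ℝ) ≤ R * (r • A).card) (hRI : R < (1 + e) ^ (I - 1))
    (hA : (r • A).Nonempty) :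
    ∃ i, 1 ≤ i ∧ i < I ∧ ((((i + 1) * r) • A).card : ℝ) ≤ (1 + e) * ((i * r) • A).card := by
  by_contra hcon
  push Not at hcon
  have h0 : (0 : ℝ) < (r • A).card := by exact_mod_cast hA.card_pos
  have key : ∀ i, i < I → (1 + e) ^ i * (r • A).card ≤ (((i + 1) * r) • A).card := by
    intro i
    induction i with
    | zero => intro _; simp
    | succ i ih =>
      intro hi
      have h1 := ih (by omega)
      have h2 := hcon (i + 1) (by omega) hi
      calc (1 + e) ^ (i + 1) * ((r • A).card : ℝ) = (1 + e) * ((1 + e) ^ i * (r • A).card) := by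
            rw [pow_succ]; ring
        _ ≤ (1 + e) * (((i + 1) * r) • A).card := mul_le_mul_of_nonneg_left h1 (by linarith)
        _ ≤ _ := h2.le
  have h3 := key (I - 1) (by omega)
  rw [show I - 1 + 1 = I by omega] at h3
  have h4 := mul_lt_mul_of_pos_right hRI h0
  linarith

theorem ft_U {F : Finset G} (γ : G →+ UnitAddCircle) :
    ft (U F) γ = (F.card : ℂ)⁻¹ * ∑ y ∈ F, ee (γ y) := by
  have h1 : ∀ a, (U F).coeff a = if a ∈ F then (F.card : ℝ)⁻¹ else 0 := by
    intro a
    simp [U, unif]
  rw [ft, Finsupp.sum_of_support_subset (s := F)]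
  · rw [Finset.mul_sum]
    refine Finset.sum_congr rfl fun y hy => ?_
    rw [h1, if_pos hy]
    push_cast
    rfl
  · intro a ha
    rw [Finsupp.mem_support_iff, h1] at ha
    by_contra hh
    exact ha (if_neg hh)
  · intro i _
    simp

/-- the characters of the large spectrum of a set almost invariant under `x` are almost trivial
at `x` -/
theorem spec_small {F F' : Finset G} (hF : F.Nonempty) {e : ℝ} (hFF : F ⊆ F')
    (hF' : (F'.card : ℝ) ≤ (1 + e) * F.card) {x : G} (hx : ∀ y ∈ F, x + y ∈ F')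
    {γ : G →+ UnitAddCircle} (hγ : 1 / 2 ≤ ‖ft (U F) γ‖) : ‖γ x‖ ≤ e := by
  classical
  have hc : (0 : ℝ) < F.card := by exact_mod_cast hF.card_pos
  have hxF : F.image (fun y => x + y) ⊆ F' := by
    intro z hz
    obtain ⟨y, hy, rfl⟩ := Finset.mem_image.1 hz
    exact hx y hy
  have hinj : Function.Injective (fun y => x + y) := add_right_injective x
  have hcard : (F.image (fun y => x + y)).card = F.card := Finset.card_image_of_injective _ hinj
  -- the two sums
  have h1 : ee (γ x) * ∑ y ∈ F, ee (γ y) = ∑ z ∈ F.image (fun y => x + y), ee (γ z) := by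
    rw [Finset.sum_image (fun a _ b _ h => hinj h), Finset.mul_sum]
    refine Finset.sum_congr rfl fun y _ => ?_
    rw [map_add, Fourier_ee_add]
  have h2 : ∀ S : Finset G, S ⊆ F' → S.card = F.card →
      ‖∑ z ∈ F', ee (γ z) - ∑ z ∈ S, ee (γ z)‖ ≤ e * F.card := by
    intro S hS hSc
    rw [← Finset.sum_sdiff hS, add_sub_cancel_right]
    refine (norm_sum_le _ _).trans ?_
    simp only [Fourier_norm_ee, Finset.sum_const, nsmul_eq_mul, mul_one]
    rw [Finset.card_sdiff_of_subset hS, Nat.cast_sub (Finset.card_le_card hS), hSc]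
    linarith
  have h3 := h2 _ hFF rfl
  have h4 := h2 _ hxF hcard
  have h5 : ‖(ee (γ x) - 1) * ∑ y ∈ F, ee (γ y)‖ ≤ 2 * (e * F.card) := by
    rw [sub_mul, one_mul, h1]
    have h6 : (∑ z ∈ F.image (fun y => x + y), ee (γ z)) - ∑ y ∈ F, ee (γ y) =
        (∑ z ∈ F', ee (γ z) - ∑ y ∈ F, ee (γ y)) -
          (∑ z ∈ F', ee (γ z) - ∑ z ∈ F.image (fun y => x + y), ee (γ z)) := by ring
    rw [h6]
    refine (norm_sub_le _ _).trans ?_
    linarith
  have h6 : ‖∑ y ∈ F, ee (γ y)‖ = F.card * ‖ft (U F) γ‖ := by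
    rw [ft_U, norm_mul, norm_inv, Complex.norm_natCast, ← mul_assoc, mul_inv_cancel₀ hc.ne', one_mul]
  rw [norm_mul, h6] at h5
  have h7 := four_mul_norm_le (γ x)
  have h8 : ‖ee (γ x) - 1‖ * (F.card * (1 / 2)) ≤ 2 * (e * F.card) := by
    refine le_trans ?_ h5
    exact mul_le_mul_of_nonneg_left (mul_le_mul_of_nonneg_left hγ hc.le) (norm_nonneg _)
  have h9 : ‖ee (γ x) - 1‖ * F.card ≤ (4 * e) * F.card := by linarith
  have h10 := le_of_mul_le_mul_right h9 hc
  linarith

/-- if the first `r` multiples of a point of the circle are small, the point is very small -/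
theorem mul_small {t : UnitAddCircle} {r : ℕ} {e : ℝ} (he : e < 1 / 4)
    (h : ∀ k ≤ r, ‖(k : ℕ) • t‖ ≤ e) (hr : 0 < r) : ‖t‖ ≤ e / r := by
  obtain ⟨s, hs, hsn⟩ := lattice_rep_exists t
  have he0 : 0 ≤ e := (norm_nonneg _).trans (h 0 (by omega))
  have hk : ∀ k : ℕ, k • t = ((((k : ℝ) * s : ℝ)) : UnitAddCircle) := by
    intro k
    rw [← hs, ← nsmul_eq_mul]
    rfl
  have key : ∀ k ≤ r, (k : ℝ) * |s| ≤ e := by
    intro k
    induction k with
    | zero => intro _; simpa using he0
    | succ k ih =>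
      intro hkr
      have h1 := ih (by omega)
      have h2 : |s| ≤ e := by
        rw [hsn]
        have := h 1 (by omega)
        rwa [one_smul] at this
      have h3 : |((k + 1 : ℕ) : ℝ) * s| < 1 / 2 := by
        rw [abs_mul, Nat.abs_cast]
        push_cast
        linarith
      have h4 := h (k + 1) hkr
      rw [hk, lattice_norm_lt h3, abs_mul, Nat.abs_cast] at h4
      exact h4
  have h5 := key r le_rfl
  have hr' : (0 : ℝ) < r := by exact_mod_cast hr
  rw [le_div_iff₀ hr', ← hsn]
  linarith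

/-- The structure: a Bohr set of size about `|n A|` such that the elements of `A` are very small. -/
theorem bohr_data [AddGroup.FG G] {A : Finset G} (h0 : (0 : G) ∈ A) {n k r I : ℕ} {L : ℝ}
    (hr : 0 < r) (hI : 1 ≤ I) (hn : k * (I * r) ≤ n)
    (hL : ((n • A + n • A).card : ℝ) ≤ L * (n • A).card)
    (hgrow : ((n • A).card : ℝ) < (13 / 12) ^ (I - 1) * A.card)
    (hk : 4 * L ^ 4 ≤ 4 ^ k) :
    ∃ S : Set (G →+ UnitAddCircle), (bohr S (1 / 6)).Finite ∧
      ((bohr S (1 / 6)).ncard : ℝ) ≤ 8 * L ^ 4 * (n • A).card ∧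
      (∀ x ∈ bohr S (1 / 6), x ∈ (n • A + n • A) - (n • A + n • A)) ∧
      (∀ a ∈ A, a ∈ bohr S ((1 / 12) / r)) := by
  classical
  have hA : A.Nonempty := ⟨0, h0⟩
  have hP : (n • A).Nonempty := hA.nsmul
  have hP0 : (0 : ℝ) < (n • A).card := by exact_mod_cast hP.card_pos
  have hL1 : 1 ≤ L := by
    have h1 : ((n • A).card : ℝ) ≤ (n • A + n • A).card := by
      exact_mod_cast Finset.card_le_card (Finset.subset_add_left _ (Finset.zero_mem_nsmul h0))
    by_contra hcon
    push Not at hcon
    have := mul_lt_mul_of_pos_right hcon hP0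
    linarith
  have hk1 : 1 ≤ k := by
    by_contra hcon
    have hk0 : k = 0 := by omega
    rw [hk0, pow_zero] at hk
    have : 1 ≤ L ^ 4 := one_le_pow₀ hL1
    linarith
  -- the Følner set
  have hIr : I * r ≤ n := le_trans (Nat.le_mul_of_pos_left _ hk1) hn
  obtain ⟨i, hi1, hiI, hF⟩ := exists_folner A (r := r) (I := I)
    (R := ((n • A).card : ℝ) / (r • A).card) (e := 1 / 12) (by norm_num) hI (by
      have h1 : (0 : ℝ) < (r • A).card := by exact_mod_cast (hA.nsmul (n := r)).card_pos
      rw [div_mul_cancel₀ _ h1.ne']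
      exact_mod_cast Finset.card_le_card (Finset.nsmul_subset_nsmul_right h0 hIr)) (by
      have h1 : (0 : ℝ) < (r • A).card := by exact_mod_cast (hA.nsmul (n := r)).card_pos
      rw [div_lt_iff₀ h1]
      have h2 : (A.card : ℝ) ≤ (r • A).card := by
        have := Finset.card_le_card (Finset.nsmul_subset_nsmul_right h0 (show 1 ≤ r from hr))
        rw [one_smul] at this
        exact_mod_cast this
      have h3 : (13 / 12 : ℝ) = 1 + 1 / 12 := by norm_num
      rw [h3] at hgrow
      exact lt_of_lt_of_le hgrow (mul_le_mul_of_nonneg_left h2 (by positivity)))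
    hA.nsmul
  set F : Finset G := (i * r) • A with hFdef
  have hFne : F.Nonempty := hA.nsmul
  have hFF : F ⊆ ((i + 1) * r) • A :=
    Finset.nsmul_subset_nsmul_right h0 (Nat.mul_le_mul_right _ (by omega))
  set S : Set (G →+ UnitAddCircle) := {γ | 1 / 2 ≤ ‖ft (U F) γ‖} with hS
  -- elements of `r A`
  have hrA : ∀ x ∈ r • A, ∀ γ ∈ S, ‖γ x‖ ≤ 1 / 12 := by
    intro x hx γ hγ
    refine spec_small hFne hFF hF (fun y hy => ?_) hγ
    rw [show (i + 1) * r = r + i * r by ring, add_smul]
    exact Finset.add_mem_add hx hy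
  have hAS : ∀ a ∈ A, a ∈ bohr S ((1 / 12) / r) := by
    intro a ha γ hγ
    refine mul_small (by norm_num) (fun j hj => ?_) hr
    rw [← map_nsmul]
    refine hrA _ ?_ γ hγ
    exact Finset.nsmul_subset_nsmul_right h0 hj (Finset.nsmul_mem_nsmul ha)
  -- the size
  set f := U (n • A) * refl (U (n • A)) * (U F * refl (U F)) ^ k with hf
  set g := U (n • A) * (U F) ^ k with hg
  have hfg : f = g * refl g := by
    rw [hf, hg, refl_mul, refl_pow (U F) k, mul_pow]; ring
  have hpow : ∀ j : ℕ, ((U F) ^ j).coeff.support ⊆ j • F := by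
    intro j
    induction j with
    | zero =>
      intro x hx
      rw [pow_zero] at hx
      rw [zero_smul]
      rw [Finsupp.mem_support_iff] at hx
      rw [Finset.mem_zero]
      by_contra hne
      apply hx
      show (AddMonoidAlgebra.single (0 : G) (1 : ℝ)).coeff x = 0
      rw [AddMonoidAlgebra.coeff_single]
      exact Finsupp.single_eq_of_ne hne
    | succ j ih =>
      rw [pow_succ, succ_nsmul]
      exact support_mul_subset ih size_support_U (fun a ha b hb => Finset.add_mem_add ha hb)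
  have hkF : k • F ⊆ n • A := by
    rw [hFdef, smul_smul]
    exact Finset.nsmul_subset_nsmul_right h0
      (le_trans (Nat.mul_le_mul_left _ (Nat.mul_le_mul_right _ hiI.le)) hn)
  have hgs : g.coeff.support ⊆ n • A + n • A :=
    support_mul_subset size_support_U ((hpow k).trans hkF)
      (fun a ha b hb => Finset.add_mem_add ha hb)
  have hglaw : Law g := (law_U hP).mul ((law_U hFne).pow k)
  have hrefl : (H112.refl g).coeff.support ⊆ -(n • A + n • A) := by
    intro x hx
    rw [Finsupp.mem_support_iff, refl_apply, ← Finsupp.mem_support_iff] at hx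
    have := hgs hx
    rw [Finset.mem_neg]
    exact ⟨-x, this, neg_neg x⟩
  have hfs : f.coeff.support ⊆ (n • A + n • A) - (n • A + n • A) := by
    rw [hfg]
    refine support_mul_subset hgs hrefl (fun a ha b hb => ?_)
    obtain ⟨c, hc, rfl⟩ := Finset.mem_neg.1 hb
    rw [← sub_eq_add_neg]
    exact Finset.sub_mem_sub ha hc
  have hflaw : Law f := by rw [hfg]; exact hglaw.mul hglaw.refl
  -- Plünnecke
  have hpl : ((((n • A + n • A) - (n • A + n • A) : Finset G)).card : ℝ) ≤ L ^ 4 * (n • A).card := by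
    have h1 := Finset.pluennecke_ruzsa_inequality_nsmul_sub_nsmul_add hP (n • A) 2 2
    have h2 : ((((n • A + n • A) - (n • A + n • A) : Finset G)).card : ℝ) ≤
        (((n • A + n • A).card : ℝ) / (n • A).card) ^ (2 + 2) * (n • A).card := by
      rw [two_nsmul] at h1
      have h2 := (NNRat.cast_le (K := ℝ)).2 h1
      push_cast at h2
      exact h2
    refine h2.trans (mul_le_mul_of_nonneg_right ?_ hP0.le)
    refine pow_le_pow_left₀ (by positivity) ?_ 4
    rw [div_le_iff₀ hP0]
    exact hL
  have hDpos : (0 : ℝ) < (((n • A + n • A) - (n • A + n • A) : Finset G)).card := by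
    have : ((n • A + n • A) - (n • A + n • A) : Finset G).Nonempty := (hP.add hP).sub (hP.add hP)
    exact_mod_cast this.card_pos
  have hf0 : 1 / (L ^ 4 * (n • A).card) ≤ f.coeff 0 := by
    have h1 := exp_neg_le_coeff_zero hglaw
    rw [← hfg] at h1
    refine le_trans ?_ h1
    have h2 : H f ≤ Real.log (((n • A + n • A) - (n • A + n • A) : Finset G)).card :=
      ent_le_log_card hflaw hfs
    have h3 : Real.exp (-Real.log (((n • A + n • A) - (n • A + n • A) : Finset G)).card) ≤
        Real.exp (-H f) := Real.exp_le_exp.2 (by linarith)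
    refine le_trans ?_ h3
    rw [Real.exp_neg, Real.exp_log hDpos, one_div]
    exact inv_anti₀ hDpos hpl
  have hLP : (0 : ℝ) < L ^ 4 * (n • A).card := by positivity
  have hf0' : 1 / L ^ 4 ≤ f.coeff 0 * (n • A).card := by
    have h1 := mul_le_mul_of_nonneg_right hf0 hP0.le
    refine le_trans (le_of_eq ?_) h1
    field_simp
  obtain ⟨hfin, hcard⟩ := bohr_finite (G := G) hP (law_U hFne) (m := k) (by
    rw [← hf]
    have h1 : (1 / 4 : ℝ) ^ k ≤ 1 / (4 * L ^ 4) := by
      rw [one_div_pow]
      exact one_div_le_one_div_of_le (by positivity) hk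
    refine h1.trans ?_
    calc 1 / (4 * L ^ 4) = (1 / L ^ 4) / 4 := by field_simp
      _ ≤ _ := by linarith)
  have hsub := fg_case (G := G) hP (law_U hFne) (m := k) (by
    rw [← hf]
    have h1 : (1 / 4 : ℝ) ^ k ≤ 1 / (4 * L ^ 4) := by
      rw [one_div_pow]
      exact one_div_le_one_div_of_le (by positivity) hk
    refine h1.trans ?_
    calc 1 / (4 * L ^ 4) = (1 / L ^ 4) / 4 := by field_simp
      _ ≤ _ := by linarith)
  rw [← hf] at hcard hsub
  refine ⟨S, hfin, ?_, ?_, hAS⟩
  · have h1 : ((bohr S (1 / 6)).ncard : ℝ) * (1 / (L ^ 4 * (n • A).card)) ≤ 8 :=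
      (mul_le_mul_of_nonneg_left hf0 (Nat.cast_nonneg _)).trans hcard
    rw [mul_one_div, div_le_iff₀ hLP] at h1
    linarith
  · intro x hx
    apply hfs
    rw [Finsupp.mem_support_iff]
    intro h0'
    have h1 := hsub x hx
    rw [h0'] at h1
    have h2 : 0 < f.coeff 0 := lt_of_lt_of_le (by positivity) hf0
    linarith

end Pool.Agent.H98.Sum
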